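import Mathlib
import Pool.Agent.Helper212.ConjBorel
import Pool.Agent.Helper212.ConjSys
import Pool.Agent.Helper212.Iso
import Pool.Agent.Helper212.NonBorel

/-!
# Conjugacy in Aut(X, mu) does not Borel reduce to conjugacy in a full group

Outline. The conjugacy relation of the full group of an ergodic automorphism is Borel
(Helper212.ConjBorel). On the other hand there are continuous maps from the space of trees on the
natural numbers to Aut(X, mu), sending a tree to two (non-ergodic) automorphisms, which are conjugate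
exactly when the tree has an infinite branch (Helper212.ConjSys). So a Borel reduction would make every
analytic subset of Baire space Borel.
-/

open MeasureTheory Filter Topology Set

namespace Pool.Agent.Results.MP_1b52a3_lc.NoBorelReduction

open Pool.Agent.Helper212.ConjBorel Pool.Agent.Helper212.Sq

section Defs

variable {X : Type*} [MeasurableSpace X]

/-- The bijections `U` of `X` such that `U` and its inverse are measurable and preserve `μ`,
as a subgroup of the group of all permutations of `X`. -/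
def autSubgroup (μ : Measure X) : Subgroup (Equiv.Perm X) where
  carrier := {U | MeasurePreserving (U : X → X) μ μ ∧ MeasurePreserving (U.symm : X → X) μ μ}
  mul_mem' := by
    rintro U V ⟨hU, hU'⟩ ⟨hV, hV'⟩
    exact ⟨hU.comp hV, hV'.comp hU'⟩
  one_mem' := ⟨MeasurePreserving.id μ, MeasurePreserving.id μ⟩
  inv_mem' := by
    rintro U ⟨hU, hU'⟩
    exact ⟨hU', hU⟩

/-- Everywhere defined representatives of the elements of `Aut(X, μ)`. -/
def PreAut (μ : Measure X) : Type _ := autSubgroup μ

instance (μ : Measure X) : Group (PreAut μ) := inferInstanceAs (Group (autSubgroup μ))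

/-- The weak topology: the coarsest topology such that `U ↦ μ (U⁻¹ A ∩ B)` is continuous for all
measurable sets `A` and `B`. -/
instance (μ : Measure X) : TopologicalSpace (PreAut μ) :=
  TopologicalSpace.induced
    (fun (U : PreAut μ) (p : {A : Set X // MeasurableSet A} × {B : Set X // MeasurableSet B}) =>
      μ.real ((U.1 : X → X) ⁻¹' p.1.1 ∩ p.2.1)) inferInstance

/-- The normal subgroup of the representatives that are almost everywhere the identity. -/
def nullSubgroup (μ : Measure X) : Subgroup (PreAut μ) where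
  carrier := {U | ∀ᵐ x ∂μ, U.1 x = x}
  mul_mem' := by
    intro U V hU hV
    have h1 : ∀ᵐ x ∂μ, U.1 (V.1 x) = V.1 x := V.2.1.quasiMeasurePreserving.ae hU
    filter_upwards [h1, (show ∀ᵐ x ∂μ, V.1 x = x from hV)] with x hx1 hx2
    show U.1 (V.1 x) = x
    rw [hx1, hx2]
  one_mem' := by
    have h1 : ∀ᵐ x ∂μ, (1 : PreAut μ).1 x = x := Eventually.of_forall fun _ => rfl
    exact h1
  inv_mem' := by
    intro U hU
    have h1 : ∀ᵐ x ∂μ, U.1 (U.1.symm x) = U.1.symm x := U.2.2.quasiMeasurePreserving.ae hU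
    filter_upwards [h1] with x hx
    show U.1.symm x = x
    rw [← hx, Equiv.apply_symm_apply]

instance (μ : Measure X) : (nullSubgroup μ).Normal where
  conj_mem := by
    intro N hN U
    have h1 : ∀ᵐ x ∂μ, N.1 (U.1.symm x) = U.1.symm x := U.2.2.quasiMeasurePreserving.ae hN
    filter_upwards [h1] with x hx
    show U.1 (N.1 (U.1.symm x)) = x
    rw [hx, Equiv.apply_symm_apply]

/-- `Aut(X, μ)`: measure preserving bimeasurable bijections, identified modulo null sets, with the
(quotient of the) weak topology. -/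
abbrev Aut (μ : Measure X) : Type _ := PreAut μ ⧸ nullSubgroup μ

/-- Sanity check: two representatives are identified iff they agree almost everywhere. -/
theorem mk_eq_mk_iff (μ : Measure X) (S T : PreAut μ) :
    (QuotientGroup.mk S : Aut μ) = QuotientGroup.mk T ↔ ∀ᵐ x ∂μ, S.1 x = T.1 x := by
  rw [QuotientGroup.eq]
  constructor
  · intro h
    have h1 : ∀ᵐ x ∂μ, S.1.symm (T.1 x) = x := h
    filter_upwards [h1] with x hx
    exact (Equiv.symm_apply_eq _).1 hx |>.symm
  · intro h
    have h1 : ∀ᵐ x ∂μ, S.1.symm (T.1 x) = x := by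
      filter_upwards [h] with x hx
      exact (Equiv.symm_apply_eq _).2 hx.symm
    exact h1

/-- Sanity check: the multiplication is the composition of maps. -/
theorem mk_mul_mk (μ : Measure X) (S T : PreAut μ) :
    (QuotientGroup.mk S : Aut μ) * QuotientGroup.mk T = QuotientGroup.mk (S * T) ∧
      ∀ x, (S * T).1 x = S.1 (T.1 x) :=
  ⟨rfl, fun _ => rfl⟩

theorem image_eq_preimage_symm (μ : Measure X) (U : PreAut μ) (A : Set X) :
    U.1 '' A = U.1.symm ⁻¹' A := Equiv.image_eq_preimage_symm _ _

theorem measurableSet_image (μ : Measure X) (U : PreAut μ) {A : Set X} (hA : MeasurableSet A) :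
    MeasurableSet (U.1 '' A) := by
  rw [image_eq_preimage_symm]; exact U.2.2.measurable hA

theorem measure_preimage_inter (μ : Measure X) (U : PreAut μ) {A B : Set X} (hA : MeasurableSet A)
    (hB : MeasurableSet B) : μ.real (U.1 ⁻¹' A ∩ B) = μ.real (A ∩ U.1 '' B) := by
  have h1 : U.1.symm ⁻¹' (U.1 ⁻¹' A ∩ B) = A ∩ U.1 '' B := by
    rw [image_eq_preimage_symm]
    ext x
    simp only [mem_preimage, mem_inter_iff]
    rw [show (U.1 (U.1.symm x)) = x from Equiv.apply_symm_apply _ _]
  have h2 : MeasurableSet (U.1 ⁻¹' A ∩ B) := (U.2.1.measurable hA).inter hB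
  rw [measureReal_def, measureReal_def, ← h1, U.2.2.measure_preimage h2.nullMeasurableSet]

/-- Sanity check: `U n → U` in the topology above iff `μ (U n A Δ U A) → 0` for all measurable `A`,
the usual definition of the weak topology. -/
theorem tendsto_iff (μ : Measure X) [IsProbabilityMeasure μ] (u : ℕ → PreAut μ) (U : PreAut μ) :
    Tendsto u atTop (𝓝 U) ↔ ∀ A : Set X, MeasurableSet A →
      Tendsto (fun n => μ.real (symmDiff ((u n).1 '' A) (U.1 '' A))) atTop (𝓝 0) := by
  rw [nhds_induced, tendsto_comap_iff, tendsto_pi_nhds]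
  constructor
  · intro h A hA
    have h1 := h (⟨U.1 '' A, measurableSet_image μ U hA⟩, ⟨A, hA⟩)
    have h2 : ∀ n, μ.real (symmDiff ((u n).1 '' A) (U.1 '' A))
        = 2 * μ.real A - 2 * μ.real ((u n).1 ⁻¹' (U.1 '' A) ∩ A) := by
      intro n
      have m1 := measurableSet_image μ (u n) hA
      have m2 := measurableSet_image μ U hA
      have e1 : μ.real ((u n).1 '' A) = μ.real A := by
        rw [image_eq_preimage_symm, measureReal_def, measureReal_def,
          (u n).2.2.measure_preimage hA.nullMeasurableSet]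
      have e2 : μ.real (U.1 '' A) = μ.real A := by
        rw [image_eq_preimage_symm, measureReal_def, measureReal_def,
          U.2.2.measure_preimage hA.nullMeasurableSet]
      rw [measure_preimage_inter μ (u n) m2 hA, inter_comm]
      have e3 : μ.real (symmDiff ((u n).1 '' A) (U.1 '' A))
          = μ.real ((u n).1 '' A \ U.1 '' A) + μ.real (U.1 '' A \ (u n).1 '' A) := by
        rw [Set.symmDiff_def, measureReal_union _ (m2.diff m1)]
        exact disjoint_sdiff_sdiff
      have e4 := measureReal_inter_add_sdiff (μ := μ) (s := (u n).1 '' A) m2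
      have e5 := measureReal_inter_add_sdiff (μ := μ) (s := U.1 '' A) m1
      rw [inter_comm] at e5
      linarith
    simp only [h2]
    have h3 : Tendsto (fun n => 2 * μ.real A - 2 * μ.real ((u n).1 ⁻¹' (U.1 '' A) ∩ A)) atTop
        (𝓝 (2 * μ.real A - 2 * μ.real (U.1 ⁻¹' (U.1 '' A) ∩ A))) :=
      (tendsto_const_nhds).sub ((tendsto_const_nhds).mul h1)
    have h4 : U.1 ⁻¹' (U.1 '' A) ∩ A = A := by
      rw [preimage_image_eq _ U.1.injective, inter_self]
    rw [h4, sub_self] at h3
    exact h3
  · rintro h ⟨⟨A, hA⟩, ⟨B, hB⟩⟩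
    have h1 := h B hB
    show Tendsto (fun n => μ.real ((u n).1 ⁻¹' A ∩ B)) atTop (𝓝 (μ.real (U.1 ⁻¹' A ∩ B)))
    rw [tendsto_iff_dist_tendsto_zero]
    refine squeeze_zero (fun _ => dist_nonneg) (fun n => ?_) h1
    rw [measure_preimage_inter μ (u n) hA hB, measure_preimage_inter μ U hA hB, Real.dist_eq]
    refine (abs_measureReal_sub_le_measureReal_symmDiff
      (hA.inter (measurableSet_image μ (u n) hB)).nullMeasurableSet
      (hA.inter (measurableSet_image μ U hB)).nullMeasurableSet).trans ?_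
    refine measureReal_mono ?_
    intro x hx
    rw [mem_symmDiff] at hx ⊢
    rcases hx with ⟨h1, h2⟩ | ⟨h1, h2⟩
    · exact Or.inl ⟨h1.2, fun h3 => h2 ⟨h1.1, h3⟩⟩
    · exact Or.inr ⟨h1.2, fun h3 => h2 ⟨h1.1, h3⟩⟩

end Defs

section Transport

variable {X : Type*} [MeasurableSpace X] {μ : Measure X}

/-- Transport of an automorphism of the model space to `X`. -/
noncomputable def transp (e : XX ≃ᵐ X) (he : MeasurePreserving e mu μ) (F : XX ≃ᵐ XX)
    (hF : MeasurePreserving F mu mu) : PreAut μ :=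
  ⟨((e.symm.trans F).trans e).toEquiv,
    ⟨he.comp (hF.comp (MeasurePreserving.symm e he)),
      he.comp ((MeasurePreserving.symm F hF).comp (MeasurePreserving.symm e he))⟩⟩

theorem transp_apply (e : XX ≃ᵐ X) (he : MeasurePreserving e mu μ) (F : XX ≃ᵐ XX)
    (hF : MeasurePreserving F mu mu) (x : X) : (transp e he F hF).1 x = e (F (e.symm x)) := rfl

/-- The automorphism of `X` coded by a tree. -/
noncomputable def PA (e : XX ≃ᵐ X) (he : MeasurePreserving e mu μ) (i : ZMod 2) (τ : Tr) :
    PreAut μ := transp e he (TCE i τ) (mp_TC i τ)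

theorem PA_apply (e : XX ≃ᵐ X) (he : MeasurePreserving e mu μ) (i : ZMod 2) (τ : Tr) (x : X) :
    (PA e he i τ).1 x = e (TC i τ (e.symm x)) := rfl

theorem continuous_PA (e : XX ≃ᵐ X) (he : MeasurePreserving e mu μ) (i : ZMod 2) :
    Continuous (PA e he i) := by
  rw [continuous_induced_rng]
  refine continuous_pi fun p => ?_
  obtain ⟨⟨A, hA⟩, ⟨B, hB⟩⟩ := p
  have h1 := continuous_meas_gen (fun τ => TC i τ) (continuous_TC_left i) (mp_TC i) (e ⁻¹' A)
    (e ⁻¹' B) (e.measurable hA)
  have h2 : ∀ τ, μ.real ((PA e he i τ).1 ⁻¹' A ∩ B)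
      = mu.real ((TC i τ) ⁻¹' (e ⁻¹' A) ∩ e ⁻¹' B) := by
    intro τ
    have h3 : e ⁻¹' ((PA e he i τ).1 ⁻¹' A ∩ B) = (TC i τ) ⁻¹' (e ⁻¹' A) ∩ e ⁻¹' B := by
      ext x
      show (e (TC i τ (e.symm (e x))) ∈ A ∧ e x ∈ B) ↔ (e (TC i τ x) ∈ A ∧ e x ∈ B)
      rw [e.symm_apply_apply]
    have h4 : MeasurableSet ((PA e he i τ).1 ⁻¹' A ∩ B) := ((PA e he i τ).2.1.measurable hA).inter hB
    rw [← h3, measureReal_def, measureReal_def, he.measure_preimage h4.nullMeasurableSet]
  exact h1.congr fun τ => (h2 τ).symm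

theorem conj_of_branch (e : XX ≃ᵐ X) (he : MeasurePreserving e mu μ) (τ : Tr) (b : ℕ → ℕ)
    (hb : ∀ n, τ (br b n) = true) : ∃ U : Aut μ,
      (QuotientGroup.mk (PA e he 1 τ) : Aut μ) = U * QuotientGroup.mk (PA e he 0 τ) * U⁻¹ := by
  refine ⟨QuotientGroup.mk (transp e he (UE τ b) (mp_UU τ b)), ?_⟩
  rw [eq_mul_inv_iff_mul_eq]
  refine congrArg QuotientGroup.mk (Subtype.ext (Equiv.ext fun x => ?_))
  show e (TC 1 τ (e.symm (e (UU τ b (e.symm x))))) = e (UU τ b (e.symm (e (TC 0 τ (e.symm x)))))
  rw [e.symm_apply_apply, e.symm_apply_apply, UU_TC τ b hb]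

theorem path_of_conj (e : XX ≃ᵐ X) (he : MeasurePreserving e mu μ) (τ : Tr)
    (h : ∃ U : Aut μ,
      (QuotientGroup.mk (PA e he 1 τ) : Aut μ) = U * QuotientGroup.mk (PA e he 0 τ) * U⁻¹) :
    HasPath τ := by
  obtain ⟨U, hU⟩ := h
  obtain ⟨W, rfl⟩ := QuotientGroup.mk_surjective U
  rw [eq_mul_inv_iff_mul_eq] at hU
  have h1 : (QuotientGroup.mk (PA e he 1 τ * W) : Aut μ) = QuotientGroup.mk (W * PA e he 0 τ) := hU
  rw [mk_eq_mk_iff] at h1
  have h2 : ∀ᵐ x ∂μ, e (TC 1 τ (e.symm (W.1 x))) = W.1 (e (TC 0 τ (e.symm x))) := h1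
  have h3 := he.quasiMeasurePreserving.ae h2
  refine path_of_intertwine τ (fun x => e.symm (W.1 (e x)))
    ((MeasurePreserving.symm e he).comp (W.2.1.comp he)) ?_
  filter_upwards [h3] with x hx
  rw [e.symm_apply_apply] at hx
  show e.symm (W.1 (e (TC 0 τ x))) = TC 1 τ (e.symm (W.1 (e x)))
  rw [← hx, e.symm_apply_apply]

end Transport

section Main

variable {X : Type*} [MeasurableSpace X] [StandardBorelSpace X]
variable {μ : Measure X} [IsProbabilityMeasure μ] {T₀ : X ≃ᵐ X} {h : Ergodic T₀ μ}

theorem exists_model (μ : Measure X) [IsProbabilityMeasure μ] [NullSingletonClass μ] :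
    ∃ e : XX ≃ᵐ X, MeasurePreserving e mu μ := by
  obtain ⟨e1, h1⟩ := exists_mp_equiv mu
  obtain ⟨e2, h2⟩ := exists_mp_equiv μ
  exact ⟨e1.trans e2.symm, (MeasurePreserving.symm e2 h2).comp h1⟩

theorem separable_preFull [NullSingletonClass μ] : TopologicalSpace.SeparableSpace (PreFull h) := by
  obtain ⟨gs, hgs⟩ := exists_dense_seq h
  refine ⟨⟨Set.range gs, Set.countable_range gs, ?_⟩⟩
  rw [Metric.dense_iff_iUnion_ball]
  intro r hr
  refine eq_univ_of_forall fun U => ?_
  obtain ⟨i, hi⟩ := hgs U (Real.sqrt (2 * r)) (Real.sqrt_pos.2 (by positivity))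
  refine mem_iUnion₂.2 ⟨gs i, ⟨i, rfl⟩, ?_⟩
  rw [dist_ev] at hi
  have h1 : 2 * dist (gs i) U < 2 * r := (Real.sqrt_lt_sqrt_iff_of_pos (by positivity)).1 hi
  have h2 : dist (gs i) U < r := by linarith
  rw [Metric.mem_ball, dist_comm]
  exact h2

theorem secondCountable_fullGroup [NullSingletonClass μ] :
    SecondCountableTopology (FullGroup h) := by
  have h1 : TopologicalSpace.SeparableSpace (PreFull h) := separable_preFull
  have h2 : TopologicalSpace.SeparableSpace (FullGroup h) :=
    SeparationQuotient.surjective_mk.denseRange.separableSpace SeparationQuotient.continuous_mk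
  exact UniformSpace.secondCountable_of_separable (FullGroup h)

end Main

/-- **Main theorem.** Let `T₀` be an ergodic automorphism of a standard atomless probability space
`(X, μ)`. There is no Borel map `f : Aut(X, μ) → [T₀]` such that `S`, `S'` are conjugate in
`Aut(X, μ)` if and only if `f S`, `f S'` are conjugate in `[T₀]`. -/
theorem result {X : Type*} [MeasurableSpace X] [StandardBorelSpace X] {μ : Measure X}
    [IsProbabilityMeasure μ] [NullSingletonClass μ] {T₀ : X ≃ᵐ X} (h : Ergodic T₀ μ) :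
    ¬ ∃ f : Aut μ → FullGroup h, Measurable[borel (Aut μ), borel (FullGroup h)] f ∧
      ∀ S S' : Aut μ,
        (∃ U : Aut μ, S' = U * S * U⁻¹) ↔ ∃ V : FullGroup h, f S' = V * f S * V⁻¹ := by
  rintro ⟨f, hf, hred⟩
  obtain ⟨D, hD, hDm⟩ := exists_analytic_not_measurable
  obtain ⟨θ, hθ, hθ1, hθ2⟩ := exists_tree D hD
  obtain ⟨e, he⟩ := exists_model μ
  let _ : MeasurableSpace (Aut μ) := borel _
  have : BorelSpace (Aut μ) := ⟨rfl⟩
  let _ : MeasurableSpace (FullGroup h) := borel _
  have : BorelSpace (FullGroup h) := ⟨rfl⟩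
  have : SecondCountableTopology (FullGroup h) := secondCountable_fullGroup
  have hm : ∀ i : ZMod 2, Measurable fun y : ℕ → ℕ =>
      f (QuotientGroup.mk (PA e he i (θ y)) : Aut μ) := by
    intro i
    have h1 : Continuous fun y : ℕ → ℕ => PA e he i (θ y) := (continuous_PA e he i).comp hθ
    have h2 : Continuous fun y : ℕ → ℕ => (QuotientGroup.mk (PA e he i (θ y)) : Aut μ) :=
      continuous_quotient_mk'.comp h1
    exact hf.comp h2.measurable
  have hE := measurableSet_conjRel h
  have hb : borel (FullGroup h × FullGroup h) = Prod.instMeasurableSpace :=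
    (BorelSpace.measurable_eq (α := FullGroup h × FullGroup h)).symm
  rw [hb] at hE
  have h3 := ((hm 1).prodMk (hm 0)) hE
  apply hDm
  convert h3 using 1
  ext y
  constructor
  · intro hy
    obtain ⟨b, hb⟩ := hθ1 y hy
    exact (hred _ _).1 (conj_of_branch e he (θ y) b hb)
  · intro hy
    exact hθ2 y (path_of_conj e he (θ y) ((hred _ _).2 hy))

end Pool.Agent.Results.MP_1b52a3_lc.NoBorelReduction
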